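import Pool.Agent.H126V.FG
import Pool.Agent.H126V.FE

/-!
# The analytic generalized Nagao conjecture in families of quadratic twists of fibrations

`K` is any number field, the base is affine space with coordinates `t_σ` (an open part of the base
`𝒴 = ℙ^m`, `m = #σ`), and `C` is a hyperelliptic curve `y² = f(x)` over `K(t_σ)`, with
`f ∈ 𝒪_K[t_σ][x]` of odd degree `≥ 3` in `x` (all elliptic curves over `K(t_σ)` are of this kind).  For
`d ∈ 𝒪_K`, `d ≠ 0`, `C_d` is the quadratic twist `d y² = f(x)`.  If `B` is the Chow trace of the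
Jacobian of `C`, then the Chow trace of the Jacobian of `C_d` is the quadratic twist `B_d`, and
`a_v(B_d) = χ_d(v) a_v(B)`.  By the theorem of Lang and Néron the rank of the Jacobian of `C_d` over
`K(t_σ)` modulo `B_d(K)` is `0` for all `d` outside finitely many square classes of `K`.
-/

set_option autoImplicit false

namespace Pool.Agent.Results.MP_3d3918_nt.TwistFamilies

open NumberField IsDedekindDomain Filter Topology Polynomial

/-- The value of `N ∈ 𝒪_K[t_σ]` at a point `t` with coordinates in the residue field of `v`. -/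
noncomputable def value {K : Type} [Field K] [NumberField K] {σ : Type}
    (v : HeightOneSpectrum (𝓞 K)) (t : σ → 𝓞 K ⧸ v.asIdeal) (N : MvPolynomial σ (𝓞 K)) :
    𝓞 K ⧸ v.asIdeal :=
  MvPolynomial.eval₂Hom (Ideal.Quotient.mk v.asIdeal) t N

/-- The polynomial `f(t, x)` over the residue field of `v`, for a point `t` of the base. -/
noncomputable def fibre {K : Type} [Field K] [NumberField K] {σ : Type}
    (v : HeightOneSpectrum (𝓞 K)) (t : σ → 𝓞 K ⧸ v.asIdeal) (f : (MvPolynomial σ (𝓞 K))[X]) :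
    (𝓞 K ⧸ v.asIdeal)[X] :=
  f.map (MvPolynomial.eval₂Hom (Ideal.Quotient.mk v.asIdeal) t)

/-- Trace of the Frobenius on `H¹` of the smooth projective curve `d y² = f(t, x)` over the residue
field of `v`: it is `q + 1` minus the number of points, and there is one point at infinity. -/
noncomputable def traceH1 {K : Type} [Field K] [NumberField K] {σ : Type}
    (v : HeightOneSpectrum (𝓞 K)) (t : σ → 𝓞 K ⧸ v.asIdeal) (f : (MvPolynomial σ (𝓞 K))[X])
    (d : 𝓞 K) : ℤ :=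
  (Ideal.absNorm v.asIdeal : ℤ) - Nat.card {P : (𝓞 K ⧸ v.asIdeal) × (𝓞 K ⧸ v.asIdeal) //
    Ideal.Quotient.mk v.asIdeal d * P.2 ^ 2 = (fibre v t f).eval P.1}

/-- The quadratic symbol `χ_d(v)`: it is `0`, `1` or `-1` if the class of `d` in the residue field of
`v` is `0`, a nonzero square, or not a square. -/
noncomputable def symbol {K : Type} [Field K] [NumberField K] (d : 𝓞 K)
    (v : HeightOneSpectrum (𝓞 K)) : ℤ :=
  open Classical in
  if Ideal.Quotient.mk v.asIdeal d = 0 then 0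
  else if IsSquare (Ideal.Quotient.mk v.asIdeal d) then 1 else -1

open Classical in
/-- The average `𝔄_v = q^{-m} ∑_t a_v(fibre over t)`, `m = #σ`, for the fibration `d y² = f(t, x)`,
over the points `t` with `N(t) ≠ 0`, where the fibre is smooth. -/
noncomputable def fibreAverage {K : Type} [Field K] [NumberField K] {σ : Type} [Fintype σ]
    (f : (MvPolynomial σ (𝓞 K))[X]) (d : 𝓞 K) (N : MvPolynomial σ (𝓞 K))
    (v : HeightOneSpectrum (𝓞 K)) : ℝ :=
  (∑ᶠ t : σ → 𝓞 K ⧸ v.asIdeal, if value v t N = 0 then (0 : ℝ) else (traceH1 v t f d : ℝ)) /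
    (Ideal.absNorm v.asIdeal : ℝ) ^ Fintype.card σ

open Classical in
/-- The series `∑_{v ∉ R} 𝔄*_v log(q_v) q_v^{-s}` of the question for the fibration
`d y² = f(t, x)`, for real `s > 1`: `𝔄*_v = 𝔄_v - χ_d(v) β_v`, where `β_v` is the trace `a_v(B)` of the
Chow trace `B` of the Jacobian of `y² = f(t, x)`. -/
noncomputable def series {K : Type} [Field K] [NumberField K] {σ : Type} [Fintype σ]
    (f : (MvPolynomial σ (𝓞 K))[X]) (d : 𝓞 K) (N : MvPolynomial σ (𝓞 K))
    (β : HeightOneSpectrum (𝓞 K) → ℝ) (R : Finset (HeightOneSpectrum (𝓞 K))) (s : ℝ) : ℝ :=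
  ∑' v : HeightOneSpectrum (𝓞 K), if v ∈ R then 0 else
    (fibreAverage f d N v - symbol d v * β v) * Real.log (Ideal.absNorm v.asIdeal : ℝ) *
      (Ideal.absNorm v.asIdeal : ℝ) ^ (-s)

/-- **Nagao residues in families of quadratic twists of a fibration.**  Let `N ≠ 0` be a polynomial
in `𝒪_K[t_σ]` such that the fibres of `y² = f(t, x)` over the points with `N ≠ 0` are smooth, let
`β_v` be real numbers (the traces `a_v(B)` of the Chow trace) and let `C` be a bound for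
`|𝔄*_v| = |𝔄_v - β_v|`, `v ∉ R₀`, for the fibration `y² = f(t, x)`; such a bound exists by Deligne's
theorem.  Let `κ` be a set of indices `k`, finite or infinite, each with a nonzero `d k ∈ 𝒪_K`, in
pairwise different square classes of `K`, and let `R k` be a finite set of primes which contains `R₀`
and the divisors of `2 d(k)`.

1. For every finite `T ⊆ κ` and `η > 0`, for all `s > 1` close to `1`,
`∑_{k ∈ T} ((s - 1) series_k(s))² ≤ C² + η`.

2. For every finite `T ⊆ κ` and `δ > 0`, for all `s > 1` close to `1`, at most `C² / δ²` of the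
numbers `(s - 1) series_k(s)`, `k ∈ T`, have absolute value `≥ δ`.

3. If the residues `ρ k`, the limits of `(s - 1) series_k(s)` for `s → 1`, `s > 1`, exist for all
`k ∈ κ`, then `∑_{k ∈ κ} ρ_k² ≤ C²`. -/
theorem result (K : Type) [Field K] [NumberField K] (σ : Type) [Fintype σ]
    (f : (MvPolynomial σ (𝓞 K))[X]) (_hodd : Odd f.natDegree) (_h3 : 3 ≤ f.natDegree)
    (N : MvPolynomial σ (𝓞 K)) (_hN0 : N ≠ 0)
    (_hN : ∀ v : HeightOneSpectrum (𝓞 K), (2 : 𝓞 K) ∉ v.asIdeal → ∀ t : σ → 𝓞 K ⧸ v.asIdeal,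
      value v t N ≠ 0 → value v t f.leadingCoeff ≠ 0 ∧ (fibre v t f).Separable)
    (β : HeightOneSpectrum (𝓞 K) → ℝ) (R₀ : Finset (HeightOneSpectrum (𝓞 K))) (C : ℝ)
    (hC : ∀ v, v ∉ R₀ → |fibreAverage f 1 N v - β v| ≤ C)
    (κ : Type) (d : κ → 𝓞 K) (hd0 : ∀ k, d k ≠ 0)
    (hsep : ∀ k l, k ≠ l → ¬ IsSquare ((d k * d l : 𝓞 K) : K))
    (R : κ → Finset (HeightOneSpectrum (𝓞 K)))
    (hR : ∀ k, ∀ v, v ∉ R k → v ∉ R₀ ∧ (2 : 𝓞 K) ∉ v.asIdeal ∧ d k ∉ v.asIdeal) :
    (∀ (T : Finset κ) (η : ℝ), 0 < η → ∀ᶠ s : ℝ in 𝓝[>] 1,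
      ∑ k ∈ T, ((s - 1) * series f (d k) N β (R k) s) ^ 2 ≤ C ^ 2 + η) ∧
    (∀ (T : Finset κ) (δ : ℝ), 0 < δ → ∀ᶠ s : ℝ in 𝓝[>] 1,
      ({k : κ | k ∈ T ∧ δ ≤ |(s - 1) * series f (d k) N β (R k) s|}.ncard : ℝ) ≤
        C ^ 2 / δ ^ 2) ∧
    (∀ ρ : κ → ℝ, (∀ k, Tendsto (fun s : ℝ => (s - 1) * series f (d k) N β (R k) s) (𝓝[>] 1)
        (𝓝 (ρ k))) →
      Summable (fun k => ρ k ^ 2) ∧ ∑' k, ρ k ^ 2 ≤ C ^ 2) := by
  classical
  have h1 : ∀ (T : Finset κ) (η : ℝ), 0 < η → ∀ᶠ s : ℝ in 𝓝[>] 1,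
      ∑ k ∈ T, ((s - 1) * series f (d k) N β (R k) s) ^ 2 ≤ C ^ 2 + η := fun T η hη =>
    Pool.Agent.H126V.FG.main f N β R₀ C hC d hd0 hsep R hR T η hη
  refine ⟨h1, fun T δ hδ => Pool.Agent.H126V.FE.count_of_sum T _
    (fun s k => (s - 1) * series f (d k) N β (R k) s) (h1 T) hδ, fun ρ hρ => ?_⟩
  exact Pool.Agent.H126V.FC.limitsR (fun k s => (s - 1) * series f (d k) N β (R k) s) h1 ρ hρ

end Pool.Agent.Results.MP_3d3918_nt.TwistFamilies
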